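import Mathlib
import Pool.Agent.Helper184.QGDefs

set_option autoImplicit false

namespace Pool.Agent.Results.MP_8306f4_co.DihedralFamily

open Pool.Agent.Helper184.QG

/-- The odd function `ZMod k → ℤ` with value `1` at `1`, `-1` at `-1` and `0` elsewhere. -/
def e (k : ℕ) (t : ZMod k) : ℤ := if t = 1 then 1 else if t = -1 then -1 else 0

theorem e_neg {k : ℕ} (hk : (1 : ZMod k) ≠ -1) (t : ZMod k) : e k (-t) = - e k t := by
  unfold e
  by_cases h1 : t = 1
  · subst h1
    rw [if_neg (fun h => hk h.symm), if_pos rfl, if_pos rfl]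
  · by_cases h2 : t = -1
    · subst h2
      rw [neg_neg, if_pos rfl, if_neg h1, if_pos rfl, neg_neg]
    · have h3 : -t ≠ 1 := fun h => h2 (by rw [← h, neg_neg])
      have h4 : -t ≠ -1 := fun h => h1 (neg_injective h)
      rw [if_neg h3, if_neg h4, if_neg h1, if_neg h2, neg_zero]

theorem e_one {k : ℕ} : e k 1 = 1 := by simp [e]

theorem e_cases {k : ℕ} (t : ZMod k) :
    (t = 1 ∧ e k t = 1) ∨ (t = -1 ∧ e k t = -1) ∨ (t ≠ 1 ∧ t ≠ -1 ∧ e k t = 0) ∨
      (t = 1 ∧ t = -1) := by
  unfold e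
  by_cases h1 : t = 1
  · left; exact ⟨h1, if_pos h1⟩
  · by_cases h2 : t = -1
    · right; left; exact ⟨h2, by rw [if_neg h1, if_pos h2]⟩
    · right; right; left; exact ⟨h1, h2, by rw [if_neg h1, if_neg h2]⟩

variable {n k : ℕ}

/-- The quasigroup operation on `ZMod n`. -/
def op (π : ZMod n →+* ZMod k) (x y : ZMod n) : ZMod n :=
  2 * y - x + (e k (π (y - x)) : ZMod n) * (k : ZMod n)

theorem piK (π : ZMod n →+* ZMod k) : π (k : ZMod n) = 0 := by
  rw [map_natCast, ZMod.natCast_self]

theorem pi_op (π : ZMod n →+* ZMod k) (x y : ZMod n) : π (op π x y) = 2 * π y - π x := by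
  unfold op
  rw [map_add, map_mul, piK, mul_zero, add_zero, map_sub, map_mul, map_ofNat]

theorem op_op (π : ZMod n →+* ZMod k) (hk : (1 : ZMod k) ≠ -1) (x y : ZMod n) :
    op π (op π x y) y = x - (e k (π (y - x)) : ZMod n) * (2 * (k : ZMod n)) := by
  have h1 : π (y - op π x y) = - π (y - x) := by
    rw [map_sub, pi_op, map_sub]; ring
  have h2 : op π (op π x y) y = 2 * y - op π x y + (e k (π (y - op π x y)) : ZMod n) * (k : ZMod n) :=
    rfl
  rw [h2, h1, e_neg hk]
  unfold op
  push_cast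
  ring

theorem quasi (π : ZMod n →+* ZMod k) [NeZero n] (h2n : IsUnit (2 : ZMod n))
    (h2k : IsUnit (2 : ZMod k)) : IsQuasigroup (op π) := by
  constructor
  · intro a b
    have hinj : Function.Injective (fun x => op π a x) := by
      intro x y hxy
      have h1 : π (op π a x) = π (op π a y) := congrArg π hxy
      rw [pi_op, pi_op] at h1
      have h2 : π x = π y := by
        have h3 : 2 * π x = 2 * π y := by linear_combination h1
        exact h2k.mul_left_cancel h3
      have h4 : op π a x = op π a y := hxy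
      unfold op at h4
      rw [map_sub, map_sub, h2] at h4
      have h5 : 2 * x = 2 * y := by linear_combination h4
      exact h2n.mul_left_cancel h5
    exact (Finite.injective_iff_bijective.mp hinj).existsUnique b
  · intro a b
    have hinj : Function.Injective (fun x => op π x a) := by
      intro x y hxy
      have h1 : π (op π x a) = π (op π y a) := congrArg π hxy
      rw [pi_op, pi_op] at h1
      have h2 : π x = π y := by linear_combination -h1
      have h4 : op π x a = op π y a := hxy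
      unfold op at h4
      rw [map_sub, map_sub, h2] at h4
      linear_combination -h4
    exact (Finite.injective_iff_bijective.mp hinj).existsUnique b

/-- The natural action of the dihedral group on `ZMod n`. -/
def D (n : ℕ) : DihedralGroup n →* Equiv.Perm (ZMod n) where
  toFun g := match g with
    | .r i => Equiv.addRight i
    | .sr i => (Equiv.neg _).trans (Equiv.addRight (-i))
  map_one' := by
    ext x
    show x + 0 = x
    rw [add_zero]
  map_mul' := by
    rintro (i | i) (j | j) <;> apply Equiv.ext <;> intro x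
    · show x + (i + j) = (x + j) + i
      ring
    · show -x + -(j - i) = (-x + -j) + i
      ring
    · show -x + -(i + j) = -(x + j) + -i
      ring
    · show x + (j - i) = -(-x + -j) + -i
      ring

theorem D_r (i x : ZMod n) : D n (.r i) x = x + i := rfl
theorem D_sr (i x : ZMod n) : D n (.sr i) x = -x + -i := rfl

theorem op_translate (π : ZMod n →+* ZMod k) (i x y : ZMod n) :
    op π (x + i) (y + i) = op π x y + i := by
  unfold op
  have : y + i - (x + i) = y - x := by ring
  rw [this]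
  ring

theorem op_neg (π : ZMod n →+* ZMod k) (hk : (1 : ZMod k) ≠ -1) (x y : ZMod n) :
    op π (-x) (-y) = - op π x y := by
  unfold op
  have : -y - -x = -(y - x) := by ring
  rw [this, map_neg, e_neg hk]
  push_cast
  ring

theorem D_mem (π : ZMod n →+* ZMod k) (hk : (1 : ZMod k) ≠ -1) (g : DihedralGroup n) :
    D n g ∈ autGroup (op π) := by
  rcases g with i | i
  · intro x y
    rw [D_r, D_r, D_r, op_translate]
  · intro x y
    rw [D_sr, D_sr, D_sr, op_translate, op_neg π hk]

theorem D_inj (h2 : IsUnit (2 : ZMod n)) (h1 : (1 : ZMod n) ≠ 0) : Function.Injective (D n) := by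
  rw [injective_iff_map_eq_one]
  rintro (i | i) h
  · have h3 : D n (.r i) 0 = 0 := by rw [h]; rfl
    rw [D_r, zero_add] at h3
    rw [h3]; rfl
  · exfalso
    have h3 : D n (.sr i) 0 = 0 := by rw [h]; rfl
    have h4 : D n (.sr i) 1 = 1 := by rw [h]; rfl
    rw [D_sr] at h3 h4
    have h5 : (2 : ZMod n) * 1 = 2 * 0 := by linear_combination h3 - h4
    exact h1 (h2.mul_left_cancel h5)

theorem e_tri (hk : (1 : ZMod k) ≠ -1) (t : ZMod k) :
    (e k t = 0 ∧ t ≠ 1 ∧ t ≠ -1) ∨ (e k t = 1 ∧ t = 1) ∨ (e k t = -1 ∧ t = -1) := by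
  rcases e_cases t with h | h | h | h
  · right; left; exact ⟨h.2, h.1⟩
  · right; right; exact ⟨h.2, h.1⟩
  · left; exact ⟨h.2.2, h.1, h.2.1⟩
  · exact absurd (h.1.symm.trans h.2) hk

theorem star (π : ZMod n →+* ZMod k) (hk : (1 : ZMod k) ≠ -1) {ψ : Equiv.Perm (ZMod n)}
    (hψ : ψ ∈ autGroup (op π)) (x y : ZMod n) :
    ψ (x - (e k (π (y - x)) : ZMod n) * (2 * (k : ZMod n))) =
      ψ x - (e k (π (ψ y - ψ x)) : ZMod n) * (2 * (k : ZMod n)) := by
  have h : ∀ x y, ψ (op π x y) = op π (ψ x) (ψ y) := hψ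
  rw [← op_op π hk, ← op_op π hk, h, h]

theorem adj (π : ZMod n →+* ZMod k) (hk : (1 : ZMod k) ≠ -1) (hu : (2 * (k : ZMod n)) ≠ 0)
    {ψ : Equiv.Perm (ZMod n)} (hψ : ψ ∈ autGroup (op π)) (x y : ZMod n) :
    (π (y - x) = 1 ∨ π (y - x) = -1) ↔ (π (ψ y - ψ x) = 1 ∨ π (ψ y - ψ x) = -1) := by
  have hs := star π hk hψ x y
  rcases e_tri hk (π (y - x)) with h | h | h <;>
  rcases e_tri hk (π (ψ y - ψ x)) with h' | h' | h'
  · constructor
    · rintro (h1 | h1)
      · exact absurd h1 h.2.1
      · exact absurd h1 h.2.2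
    · rintro (h1 | h1)
      · exact absurd h1 h'.2.1
      · exact absurd h1 h'.2.2
  · exfalso
    rw [h.1, h'.1] at hs
    apply hu
    push_cast at hs
    rw [zero_mul, sub_zero, one_mul] at hs
    linear_combination hs
  · exfalso
    rw [h.1, h'.1] at hs
    apply hu
    push_cast at hs
    rw [zero_mul, sub_zero] at hs
    linear_combination -hs
  · exfalso
    rw [h.1, h'.1] at hs
    apply hu
    push_cast at hs
    rw [zero_mul, sub_zero, one_mul] at hs
    have := ψ.injective hs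
    linear_combination -this
  · exact ⟨fun _ => Or.inl h'.2, fun _ => Or.inl h.2⟩
  · exact ⟨fun _ => Or.inr h'.2, fun _ => Or.inl h.2⟩
  · exfalso
    rw [h.1, h'.1] at hs
    apply hu
    push_cast at hs
    rw [zero_mul, sub_zero] at hs
    have := ψ.injective hs
    linear_combination this
  · exact ⟨fun _ => Or.inl h'.2, fun _ => Or.inr h.2⟩
  · exact ⟨fun _ => Or.inr h'.2, fun _ => Or.inr h.2⟩

theorem fibre (π : ZMod n →+* ZMod k) (hk : (1 : ZMod k) ≠ -1) (hu : (2 * (k : ZMod n)) ≠ 0)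
    (h4 : (4 : ZMod k) ≠ 0)
    {ψ : Equiv.Perm (ZMod n)} (hψ : ψ ∈ autGroup (op π)) {x x' : ZMod n} (h : π x = π x') :
    π (ψ x) = π (ψ x') := by
  have key : ∀ q : ZMod n, (π (q - ψ x) = 1 ∨ π (q - ψ x) = -1) →
      (π (q - ψ x') = 1 ∨ π (q - ψ x') = -1) := by
    intro q hq
    obtain ⟨z, rfl⟩ := ψ.surjective q
    rw [← adj π hk hu hψ] at hq ⊢
    rw [map_sub, ← h, ← map_sub]
    exact hq
  have k1 := key (ψ x + 1) (Or.inl (by rw [add_sub_cancel_left, map_one]))
  have k2 := key (ψ x - 1) (Or.inr (by rw [sub_sub_cancel_left, map_neg, map_one]))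
  rw [map_sub, map_add, map_one] at k1
  rw [map_sub, map_sub, map_one] at k2
  rcases k1 with k1 | k1
  · linear_combination k1
  · rcases k2 with k2 | k2
    · exfalso
      apply h4
      linear_combination k1 - k2
    · linear_combination k2

theorem lin (π : ZMod n →+* ZMod k) [NeZero n] (hk : (1 : ZMod k) ≠ -1)
    (hu : (2 * (k : ZMod n)) ≠ 0) (h4 : (4 : ZMod k) ≠ 0)
    {ψ : Equiv.Perm (ZMod n)} (hψ : ψ ∈ autGroup (op π)) (h0 : ψ 0 = 0) :
    (∀ x, π (ψ x) = π x) ∨ (∀ x, π (ψ x) = - π x) := by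
  have h2 : (2 : ZMod k) ≠ 0 := by
    intro h
    apply h4
    linear_combination 2 * h
  have hstep : ∀ x : ZMod n, π (ψ (x + 1)) - π (ψ x) = 1 ∨ π (ψ (x + 1)) - π (ψ x) = -1 := by
    intro x
    have := (adj π hk hu hψ x (x + 1)).mp (Or.inl (by rw [add_sub_cancel_left, map_one]))
    rwa [map_sub] at this
  have hne : ∀ x : ZMod n, π (ψ (x + 1 + 1)) ≠ π (ψ x) := by
    intro x hx
    have h1 : π (ψ.symm (ψ (x + 1 + 1))) = π (ψ.symm (ψ x)) :=
      fibre π hk hu h4 ((autGroup (op π)).inv_mem hψ) hx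
    rw [Equiv.symm_apply_apply, Equiv.symm_apply_apply, map_add, map_add, map_one] at h1
    apply h2
    linear_combination h1
  obtain ⟨s, hs, hs1⟩ : ∃ s : ZMod k, (s = 1 ∨ s = -1) ∧ π (ψ 1) = s := by
    have := hstep 0
    rw [zero_add, h0, map_zero, sub_zero] at this
    exact ⟨_, this, rfl⟩
  have hind : ∀ j : ℕ, π (ψ (j : ZMod n)) = j * s ∧ π (ψ ((j : ZMod n) + 1)) = (j + 1) * s := by
    intro j
    induction j with
    | zero =>
      constructor
      · rw [Nat.cast_zero, h0, map_zero, Nat.cast_zero, zero_mul]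
      · rw [Nat.cast_zero, zero_add, hs1, Nat.cast_zero, zero_add, one_mul]
    | succ j ih =>
      push_cast
      refine ⟨ih.2, ?_⟩
      have a1 := hstep ((j : ZMod n) + 1)
      have a2 := hne (j : ZMod n)
      rcases hs with rfl | rfl
      · rcases a1 with a1 | a1
        · linear_combination a1 + ih.2
        · exfalso
          apply a2
          linear_combination a1 + ih.2 - ih.1
      · rcases a1 with a1 | a1
        · exfalso
          apply a2
          linear_combination a1 + ih.2 - ih.1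
        · linear_combination a1 + ih.2
  have hall : ∀ x : ZMod n, π (ψ x) = π x * s := by
    intro x
    have h1 := (hind x.val).1
    have h3 : π x = (x.val : ZMod k) := by
      conv_lhs => rw [← ZMod.natCast_zmod_val x]
      rw [map_natCast]
    rw [ZMod.natCast_zmod_val] at h1
    rw [h1, h3]
  rcases hs with rfl | rfl
  · left; intro x; rw [hall, mul_one]
  · right; intro x; rw [hall, mul_neg, mul_one]

theorem ident (π : ZMod n →+* ZMod k) [NeZero n] (hk : (1 : ZMod k) ≠ -1)
    (h2n : IsUnit (2 : ZMod n)) (hker : ∀ x, π x = 0 → ∃ t, x = t * (k : ZMod n))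
    (m : ℕ) (hmk : (m : ZMod n) * (k : ZMod n) = 0) (hcop : ∃ a b : ZMod n, a * k + b * m = 1)
    {ψ : Equiv.Perm (ZMod n)} (hψ : ψ ∈ autGroup (op π)) (h0 : ψ 0 = 0)
    (hπ : ∀ x, π (ψ x) = π x) (x : ZMod n) : ψ x = x := by
  obtain ⟨w, hw⟩ : ∃ w : ZMod n, 2 * w = 1 := ⟨_, h2n.mul_val_inv⟩
  have h1 : ∀ x, ψ (x - 2 * (k : ZMod n)) = ψ x - 2 * (k : ZMod n) := by
    intro x
    have hs := star π hk hψ x (x + 1)
    have a1 : π (x + 1 - x) = 1 := by rw [add_sub_cancel_left, map_one]
    have a2 : π (ψ (x + 1) - ψ x) = 1 := by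
      rw [map_sub, hπ, hπ, ← map_sub, a1]
    rw [a1, a2, e_one] at hs
    push_cast at hs
    rwa [one_mul] at hs
  have h2 : ∀ (j : ℕ) (x : ZMod n), ψ (x - j * (2 * (k : ZMod n))) = ψ x - j * (2 * (k : ZMod n)) := by
    intro j
    induction j with
    | zero => intro x; simp
    | succ j ih =>
      intro x
      have e1 : x - ((j + 1 : ℕ) : ZMod n) * (2 * (k : ZMod n)) =
          (x - 2 * (k : ZMod n)) - j * (2 * (k : ZMod n)) := by push_cast; ring
      rw [e1, ih, h1]
      push_cast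
      ring
  have h3 : ∀ x t : ZMod n, ψ (x + t * (k : ZMod n)) = ψ x + t * (k : ZMod n) := by
    intro x t
    have a := h2 (-(w * t)).val x
    rw [ZMod.natCast_zmod_val] at a
    have e1 : x - -(w * t) * (2 * (k : ZMod n)) = x + t * (k : ZMod n) := by
      linear_combination (t * k) * hw
    have e2 : ψ x - -(w * t) * (2 * (k : ZMod n)) = ψ x + t * (k : ZMod n) := by
      linear_combination (t * k) * hw
    rw [e1, e2] at a
    exact a
  have h4 : ∀ x y : ZMod n, ψ (2 * y - x) = 2 * ψ y - ψ x := by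
    intro x y
    have a : ψ (op π x y) = op π (ψ x) (ψ y) := hψ x y
    unfold op at a
    rw [h3, map_sub π, map_sub π, hπ, hπ] at a
    linear_combination a
  have h5 : ∀ z x : ZMod n, ψ (z - x) = ψ z - ψ x := by
    intro z x
    have a := h4 x (w * z)
    have b := h4 0 (w * z)
    have c : 2 * (w * z) = z := by linear_combination z * hw
    rw [c] at a b
    rw [sub_zero, h0, sub_zero] at b
    rw [a, b]
  have h6 : ∀ j : ℕ, ψ (j : ZMod n) = j * ψ 1 := by
    intro j
    induction j with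
    | zero => rw [Nat.cast_zero, h0, zero_mul]
    | succ j ih =>
      have a := h5 ((j : ZMod n) + 1) 1
      rw [add_sub_cancel_right, ih] at a
      push_cast
      linear_combination -a
  have h7 : ∀ x : ZMod n, ψ x = x * ψ 1 := by
    intro x
    have := h6 x.val
    rwa [ZMod.natCast_zmod_val] at this
  have h8 : (k : ZMod n) * ψ 1 = k := by
    have a := h3 0 1
    rw [zero_add, one_mul, h0, zero_add] at a
    rw [← h7, a]
  obtain ⟨t, ht⟩ := hker (ψ 1 - 1) (by rw [map_sub, hπ, sub_self])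
  obtain ⟨a, b, hab⟩ := hcop
  have h9 : ψ 1 = 1 := by
    have c1 : (ψ 1 - 1) * (k : ZMod n) = 0 := by linear_combination h8
    have c2 : (ψ 1 - 1) * (m : ZMod n) = 0 := by
      rw [ht]
      linear_combination t * hmk
    have c3 : ψ 1 - 1 = 0 := by
      linear_combination a * c1 + b * c2 - (ψ 1 - 1) * hab
    linear_combination c3
  rw [h7, h9, mul_one]

theorem D_surj (π : ZMod n →+* ZMod k) [NeZero n] (hk : (1 : ZMod k) ≠ -1)
    (hu : (2 * (k : ZMod n)) ≠ 0) (h4 : (4 : ZMod k) ≠ 0)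
    (h2n : IsUnit (2 : ZMod n)) (hker : ∀ x, π x = 0 → ∃ t, x = t * (k : ZMod n))
    (m : ℕ) (hmk : (m : ZMod n) * (k : ZMod n) = 0) (hcop : ∃ a b : ZMod n, a * k + b * m = 1)
    {ψ : Equiv.Perm (ZMod n)} (hψ : ψ ∈ autGroup (op π)) : ∃ g, D n g = ψ := by
  set a := ψ 0 with ha
  set ψ1 := D n (.r (-a)) * ψ with hψ1
  have m1 : ψ1 ∈ autGroup (op π) := (autGroup (op π)).mul_mem (D_mem π hk _) hψ
  have v1 : ∀ x, ψ1 x = ψ x + -a := by
    intro x
    rw [hψ1, Equiv.Perm.mul_apply, D_r]
  have z1 : ψ1 0 = 0 := by rw [v1, ← ha, add_neg_cancel]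
  rcases lin π hk hu h4 m1 z1 with h | h
  · refine ⟨.r a, ?_⟩
    ext x
    have b := ident π hk h2n hker m hmk hcop m1 z1 h x
    rw [v1] at b
    rw [D_r]
    linear_combination -b
  · set ψ2 := D n (.sr 0) * ψ1 with hψ2
    have m2 : ψ2 ∈ autGroup (op π) := (autGroup (op π)).mul_mem (D_mem π hk _) m1
    have v2 : ∀ x, ψ2 x = - ψ1 x := by
      intro x
      rw [hψ2, Equiv.Perm.mul_apply, D_sr, neg_zero, add_zero]
    have z2 : ψ2 0 = 0 := by rw [v2, z1, neg_zero]
    refine ⟨.sr (-a), ?_⟩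
    ext x
    have b := ident π hk h2n hker m hmk hcop m2 z2
      (fun x => by rw [v2, map_neg, h, neg_neg]) x
    rw [v2, v1] at b
    rw [D_sr]
    linear_combination b

/-- If `n = m k` with coprime odd `m, k > 1` (that is, `n` is odd, `n > 1` and `n` is not a prime
power), then the dihedral group of order `2n` admits a transitive representation by a
quasigroup. -/
theorem result (m k : ℕ) (hm : Odd m) (hk : Odd k) (hm1 : 1 < m) (hk1 : 1 < k)
    (hcop : Nat.Coprime m k) : AdmitsTransitive (DihedralGroup (m * k)) := by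
  have hpos : 0 < m * k := Nat.mul_pos (by omega) (by omega)
  have : NeZero (m * k) := ⟨hpos.ne'⟩
  have : NeZero k := ⟨by omega⟩
  have hk3 : 3 ≤ k := by
    rcases hk with ⟨r, hr⟩; omega
  have hm3 : 3 ≤ m := by
    rcases hm with ⟨r, hr⟩; omega
  set n := m * k with hn
  have hodd : Odd n := hm.mul hk
  have hdvd : k ∣ n := Dvd.intro_left m rfl
  let π : ZMod n →+* ZMod k := ZMod.castHom hdvd (ZMod k)
  have h2n : IsUnit (2 : ZMod n) := by
    have := (ZMod.unitOfCoprime 2 (Nat.coprime_two_left.mpr hodd)).isUnit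
    simpa using this
  have h2k : IsUnit (2 : ZMod k) := by
    have := (ZMod.unitOfCoprime 2 (Nat.coprime_two_left.mpr hk)).isUnit
    simpa using this
  have hone : (1 : ZMod k) ≠ -1 := by
    intro h
    have h1 : ((2 : ℕ) : ZMod k) = 0 := by push_cast; linear_combination h
    rw [ZMod.natCast_eq_zero_iff] at h1
    have := Nat.le_of_dvd (by norm_num) h1
    omega
  have : Fact (1 < k) := ⟨hk1⟩
  have h4 : (4 : ZMod k) ≠ 0 := by
    have h : (4 : ZMod k) = 2 * 2 := by norm_num
    rw [h]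
    exact (h2k.mul h2k).ne_zero
  have hu : (2 * (k : ZMod n)) ≠ 0 := by
    intro h
    have h1 : ((2 * k : ℕ) : ZMod n) = 0 := by push_cast; exact h
    rw [ZMod.natCast_eq_zero_iff] at h1
    have h3 := Nat.le_of_dvd (by omega) h1
    rw [hn] at h3
    have h5 : m ≤ 2 := Nat.le_of_mul_le_mul_right h3 (by omega)
    omega
  have h1n : (1 : ZMod n) ≠ 0 := by
    have : Fact (1 < n) := ⟨by rw [hn]; nlinarith⟩
    exact one_ne_zero
  have hker : ∀ x, π x = 0 → ∃ t, x = t * (k : ZMod n) := by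
    intro x hx
    have h1 : π x = (x.val : ZMod k) := by
      conv_lhs => rw [← ZMod.natCast_zmod_val x]
      rw [map_natCast]
    rw [h1, ZMod.natCast_eq_zero_iff] at hx
    obtain ⟨t, ht⟩ := hx
    refine ⟨t, ?_⟩
    conv_lhs => rw [← ZMod.natCast_zmod_val x, ht]
    push_cast
    ring
  have hmk : (m : ZMod n) * (k : ZMod n) = 0 := by
    rw [← Nat.cast_mul, ← hn, ZMod.natCast_self]
  have hbez : ∃ a b : ZMod n, a * k + b * m = 1 := by
    have h1 := Nat.gcd_eq_gcd_ab m k
    rw [Nat.Coprime.gcd_eq_one hcop] at h1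
    have h2 : ((1 : ℤ) : ZMod n) = ((m * Nat.gcdA m k + k * Nat.gcdB m k : ℤ) : ZMod n) := by
      exact_mod_cast congrArg (fun z : ℤ => (z : ZMod n)) h1
    push_cast at h2
    exact ⟨(Nat.gcdB m k : ZMod n), (Nat.gcdA m k : ZMod n), by linear_combination -h2⟩
  let F : DihedralGroup n →* autGroup (op π) := (D n).codRestrict (autGroup (op π)) (D_mem π hone)
  have hF : Function.Bijective F := by
    constructor
    · intro a b hab
      apply D_inj h2n h1n
      exact congrArg Subtype.val hab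
    · rintro ⟨ψ, hψ⟩
      obtain ⟨g, hg⟩ := D_surj π hone hu h4 h2n hker m hmk hbez hψ
      exact ⟨g, Subtype.ext hg⟩
  refine ⟨ZMod n, op π, ⟨0⟩, quasi π h2n h2k, ⟨MulEquiv.ofBijective F hF⟩, ?_⟩
  intro x y
  refine ⟨D n (.r (y - x)), D_mem π hone _, ?_⟩
  rw [D_r]
  ring

end Pool.Agent.Results.MP_8306f4_co.DihedralFamily
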