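import Mathlib
import Pool.Agent.Helper184.QGDefs
import Pool.Agent.Helper184.QGNeg2

set_option autoImplicit false

namespace Pool.Agent.Results.MP_8306f4_co.DihedralFiveSeven

open Pool.Agent.Helper184.QG

theorem lin5 (φ : ZMod 5 → ZMod 5) (h1 : Function.Injective φ)
    (h2 : Function.Injective (fun x => φ x - x)) (h3 : ∀ x, φ (-x) = - φ x) (x : ZMod 5) :
    φ x = x * φ 1 := by
  have key : ∀ a b : ZMod 5, a ≠ 0 → b ≠ 0 → a ≠ b → a ≠ -b → a - 1 ≠ 0 → b - 2 ≠ 0 →
      a - 1 ≠ b - 2 → a - 1 ≠ -(b - 2) → b = 2 * a := by decide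
  have h0 : φ 0 = 0 := by
    have h := h3 0
    rw [neg_zero] at h
    have : ∀ a : ZMod 5, a = -a → a = 0 := by decide
    exact this _ h
  have q1 : ∀ x y : ZMod 5, x ≠ y → φ x ≠ φ y := fun x y h h' => h (h1 h')
  have q2 : ∀ x y : ZMod 5, x ≠ y → φ x - x ≠ φ y - y := fun x y h h' => h (h2 h')
  have hb := key (φ 1) (φ 2) (h0 ▸ q1 1 0 (by decide)) (h0 ▸ q1 2 0 (by decide))
    (q1 1 2 (by decide)) (h3 2 ▸ q1 1 (-2) (by decide))
    (by have := q2 1 0 (by decide); rwa [h0, sub_zero] at this)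
    (by have := q2 2 0 (by decide); rwa [h0, sub_zero] at this)
    (q2 1 2 (by decide))
    (by
      have := q2 1 (-2) (by decide)
      rw [h3] at this
      intro h
      apply this
      rw [h]; ring)
  have c : ∀ x : ZMod 5, x = 0 ∨ x = 1 ∨ x = 2 ∨ x = -1 ∨ x = -2 := by decide
  rcases c x with rfl | rfl | rfl | rfl | rfl
  · rw [h0, zero_mul]
  · rw [one_mul]
  · exact hb
  · rw [h3]; ring
  · rw [h3, hb]; ring

/-- A finite check on triples, used for the group of order 14. -/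
def chk (a b c : ZMod 7) : Bool := 
  decide (a ≠ 0) && decide (b ≠ 0) && decide (c ≠ 0) && decide (a ≠ b) && decide (a ≠ -b) && decide (a ≠ c) && decide (a ≠ -c) && decide (b ≠ c) && decide (b ≠ -c) && decide (a - 1 ≠ 0) && decide (b - 2 ≠ 0) && decide (c - 3 ≠ 0) && decide (a - 1 ≠ b - 2) && decide (a - 1 ≠ -(b - 2)) && decide (a - 1 ≠ c - 3) && decide (a - 1 ≠ -(c - 3)) && decide (b - 2 ≠ c - 3) && decide (b - 2 ≠ -(c - 3))
theorem key8 : ∀ a b c : ZMod 7, chk a b c = true → b = 2 * a ∧ c = 3 * a := by decide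
theorem key7 (a b c : ZMod 7) (h1 : a ≠ 0 ∧ b ≠ 0 ∧ c ≠ 0) (h2 : a ≠ b ∧ a ≠ -b ∧ a ≠ c ∧ a ≠ -c ∧
      b ≠ c ∧ b ≠ -c) (h3 : a - 1 ≠ 0 ∧ b - 2 ≠ 0 ∧ c - 3 ≠ 0)
      (h4 : a - 1 ≠ b - 2 ∧ a - 1 ≠ -(b - 2) ∧ a - 1 ≠ c - 3 ∧ a - 1 ≠ -(c - 3) ∧
      b - 2 ≠ c - 3 ∧ b - 2 ≠ -(c - 3)) : b = 2 * a ∧ c = 3 * a := by
  apply key8
  obtain ⟨x1, x2, x3⟩ := h1
  obtain ⟨y1, y2, y3, y4, y5, y6⟩ := h2
  obtain ⟨z1, z2, z3⟩ := h3
  obtain ⟨w1, w2, w3, w4, w5, w6⟩ := h4
  simp only [chk, Bool.and_eq_true, decide_eq_true_eq]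
  exact ⟨⟨⟨⟨⟨⟨⟨⟨⟨⟨⟨⟨⟨⟨⟨⟨⟨x1, x2⟩, x3⟩, y1⟩, y2⟩, y3⟩, y4⟩, y5⟩, y6⟩, z1⟩, z2⟩, z3⟩, w1⟩, w2⟩, w3⟩, w4⟩, w5⟩, w6⟩

theorem lin7 (φ : ZMod 7 → ZMod 7) (h1 : Function.Injective φ)
    (h2 : Function.Injective (fun x => φ x - x)) (h3 : ∀ x, φ (-x) = - φ x) (x : ZMod 7) :
    φ x = x * φ 1 := by
  have h0 : φ 0 = 0 := by
    have h := h3 0
    rw [neg_zero] at h
    have : ∀ a : ZMod 7, a = -a → a = 0 := by decide
    exact this _ h
  have q1 : ∀ x y : ZMod 7, x ≠ y → φ x ≠ φ y := fun x y h h' => h (h1 h')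
  have q2 : ∀ x y : ZMod 7, x ≠ y → φ x - x ≠ φ y - y := fun x y h h' => h (h2 h')
  have q3 : ∀ x y : ZMod 7, x ≠ -y → φ x - x ≠ -(φ y - y) := by
    intro x y h h'
    apply q2 x (-y) h
    rw [h', h3]; ring
  have q4 : ∀ x y : ZMod 7, x ≠ -y → φ x ≠ - φ y := by
    intro x y h h'
    apply q1 x (-y) h
    rw [h', h3]
  have q5 : ∀ x : ZMod 7, x ≠ 0 → φ x ≠ 0 := fun x h => h0 ▸ q1 x 0 h
  have q6 : ∀ x : ZMod 7, x ≠ 0 → φ x - x ≠ 0 := by
    intro x h
    have := q2 x 0 h
    rwa [h0, sub_zero] at this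
  have hb := key7 (φ 1) (φ 2) (φ 3) ⟨q5 _ (by decide), q5 _ (by decide), q5 _ (by decide)⟩
    ⟨q1 _ _ (by decide), q4 _ _ (by decide), q1 _ _ (by decide), q4 _ _ (by decide),
      q1 _ _ (by decide), q4 _ _ (by decide)⟩
    ⟨q6 _ (by decide), q6 _ (by decide), q6 _ (by decide)⟩
    ⟨q2 _ _ (by decide), q3 _ _ (by decide), q2 _ _ (by decide), q3 _ _ (by decide),
      q2 _ _ (by decide), q3 _ _ (by decide)⟩
  have c : ∀ x : ZMod 7, x = 0 ∨ x = 1 ∨ x = 2 ∨ x = 3 ∨ x = -1 ∨ x = -2 ∨ x = -3 := by decide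
  rcases c x with rfl | rfl | rfl | rfl | rfl | rfl | rfl
  · rw [h0, zero_mul]
  · rw [one_mul]
  · exact hb.1
  · exact hb.2
  · rw [h3]; ring
  · rw [h3, hb.1]; ring
  · rw [h3, hb.2]; ring

/-- If every odd orthomorphism of `ZMod p` is linear, where `p ≥ 5` is prime, then the dihedral
group of order `2p` admits no transitive representation by a quasigroup. -/
theorem neg_of_linear (p : ℕ) (hp : p.Prime) (h5 : 5 ≤ p)
    (hlin : ∀ φ : ZMod p → ZMod p, Function.Injective φ → Function.Injective (fun x => φ x - x) →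
      (∀ x, φ (-x) = - φ x) → ∀ x, φ x = x * φ 1) :
    ¬ AdmitsTransitive (DihedralGroup p) := by
  classical
  have : Fact p.Prime := ⟨hp⟩
  have : NeZero p := ⟨hp.ne_zero⟩
  rintro ⟨Q, m, ⟨q⟩, hm, ⟨E⟩, htr⟩
  set e : DihedralGroup p →* Equiv.Perm Q := (autGroup m).subtype.comp E.toMonoidHom with he
  have haut : ∀ g x y, e g (m x y) = m (e g x) (e g y) := fun g => (E g).2
  have heinj : Function.Injective e := by
    intro a b hab
    exact E.injective (Subtype.ext hab)
  have hesurj : ∀ φ ∈ autGroup m, ∃ g, e g = φ := by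
    intro φ hφ
    refine ⟨E.symm ⟨φ, hφ⟩, ?_⟩
    simp only [he, MonoidHom.comp_apply, MulEquiv.coe_toMonoidHom, MulEquiv.apply_symm_apply,
      Subgroup.subtype_apply]
  have htrans : ∀ x y, ∃ g, e g x = y := by
    intro x y
    obtain ⟨φ, hφ, hxy⟩ := htr x y
    obtain ⟨g, hg⟩ := hesurj φ hφ
    exact ⟨g, by rw [hg, hxy]⟩
  have hfin : Finite Q := Finite.of_surjective (fun g => e g q) (htrans q)
  have hodd : Odd (Nat.card Q) := by
    obtain ⟨P⟩ : Nonempty (Sylow 2 (DihedralGroup p)) := inferInstance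
    apply odd_card_of_cyclic_sylow hm e haut htrans q P
    have h1 : Nat.card P = 2 := by
      rw [Sylow.card_eq_multiplicity, DihedralGroup.nat_card,
        Nat.factorization_mul (by norm_num) hp.ne_zero, Finsupp.add_apply,
        Nat.prime_two.factorization_self,
        Nat.factorization_eq_zero_of_not_dvd (p := 2) (n := p)]
      · norm_num
      · intro h
        have := (Nat.prime_dvd_prime_iff_eq Nat.prime_two hp).mp h
        omega
    have : Fact (Nat.Prime 2) := ⟨Nat.prime_two⟩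
    exact isCyclic_of_prime_card h1
  -- rotations act freely
  have hfree : ∀ (q' : Q) (d : ZMod p), e (.r d) q' = q' → d = 0 := by
    intro q' d hd
    have hd' : e (.r (-d)) q' = q' := by
      have h1 : (DihedralGroup.r (-d) : DihedralGroup p) = (DihedralGroup.r d)⁻¹ := rfl
      rw [h1, map_inv, Equiv.Perm.inv_eq_iff_eq, hd]
    have h1 : e (.r d) = 1 := by
      ext y
      obtain ⟨g, hg⟩ := htrans q' y
      rw [← hg, Equiv.Perm.one_apply, ← Equiv.Perm.mul_apply, ← map_mul]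
      rcases g with i | i
      · rw [DihedralGroup.r_mul_r, add_comm, ← DihedralGroup.r_mul_r, map_mul,
          Equiv.Perm.mul_apply, hd]
      · rw [DihedralGroup.r_mul_sr, sub_eq_add_neg, ← DihedralGroup.sr_mul_r, map_mul,
          Equiv.Perm.mul_apply, hd']
    have h2 : (DihedralGroup.r d : DihedralGroup p) = 1 := heinj (by rw [h1, map_one])
    rw [DihedralGroup.one_def] at h2
    exact DihedralGroup.r.inj h2
  have hbinj : ∀ q' : Q, Function.Injective (fun i : ZMod p => e (.r i) q') := by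
    intro q' i j hij
    have h1 : e (.r (i - j)) q' = q' := by
      have h2 : e (.r i) q' = e (.r j) q' := hij
      have h3 : (DihedralGroup.r (i - j) : DihedralGroup p) = .r (-j) * .r i := by
        rw [DihedralGroup.r_mul_r]; congr 1; ring
      rw [h3, map_mul, Equiv.Perm.mul_apply, h2, ← Equiv.Perm.mul_apply, ← map_mul,
        DihedralGroup.r_mul_r, neg_add_cancel, ← DihedralGroup.one_def, map_one,
        Equiv.Perm.one_apply]
    exact sub_eq_zero.mp (hfree q' _ h1)
  have hcard : Nat.card Q = p := by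
    let _ : MulAction (DihedralGroup p) Q := MulAction.compHom Q e
    have : MulAction.IsPretransitive (DihedralGroup p) Q := ⟨fun x y => htrans x y⟩
    have h1 := MulAction.index_stabilizer_of_transitive (DihedralGroup p) q
    have h2 := Subgroup.index_mul_card (MulAction.stabilizer (DihedralGroup p) q)
    rw [h1, DihedralGroup.nat_card] at h2
    have h3 : Nat.card Q ∣ 2 * p := Dvd.intro _ h2
    have h4 : Nat.card Q ∣ p :=
      (Nat.Coprime.dvd_of_dvd_mul_left (Nat.coprime_two_right.mpr hodd) h3)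
    have h6 : p ≤ Nat.card Q := by
      have := Nat.card_le_card_of_injective _ (hbinj q)
      rwa [Nat.card_zmod] at this
    exact le_antisymm (Nat.le_of_dvd hp.pos h4) h6
  have hbbij : ∀ q' : Q, Function.Bijective (fun i : ZMod p => e (.r i) q') := by
    intro q'
    rw [Nat.bijective_iff_injective_and_card]
    exact ⟨hbinj q', by rw [Nat.card_zmod, hcard]⟩
  have h2ne : (2 : ZMod p) ≠ 0 := by
    intro h
    have h1 : ((2 : ℕ) : ZMod p) = 0 := by exact_mod_cast h
    rw [ZMod.natCast_eq_zero_iff] at h1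
    have := Nat.le_of_dvd (by norm_num) h1
    omega
  have h3ne : (3 : ZMod p) ≠ 0 := by
    intro h
    have h1 : ((3 : ℕ) : ZMod p) = 0 := by exact_mod_cast h
    rw [ZMod.natCast_eq_zero_iff] at h1
    have := Nat.le_of_dvd (by norm_num) h1
    omega
  -- a point fixed by the reflection `sr 0`
  obtain ⟨q0, hq0⟩ : ∃ q0, e (.sr 0) q0 = q0 := by
    obtain ⟨c, hc⟩ := (hbbij q).2 (e (.sr 0) q)
    have hc' : e (.r c) q = e (.sr 0) q := hc
    refine ⟨e (.r (c / 2)) q, ?_⟩
    rw [← Equiv.Perm.mul_apply, ← map_mul, DihedralGroup.sr_mul_r, zero_add]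
    have h1 : (DihedralGroup.sr (c / 2) : DihedralGroup p) = .r (-(c / 2)) * .sr 0 := by
      rw [DihedralGroup.r_mul_sr]; congr 1; ring
    rw [h1, map_mul, Equiv.Perm.mul_apply, ← hc', ← Equiv.Perm.mul_apply, ← map_mul,
      DihedralGroup.r_mul_r]
    congr 3
    field_simp
    ring
  set b : ZMod p ≃ Q := Equiv.ofBijective _ (hbbij q0) with hb
  have bval : ∀ i, b i = e (.r i) q0 := fun i => rfl
  have b0 : b 0 = q0 := by
    rw [bval, ← DihedralGroup.one_def, map_one, Equiv.Perm.one_apply]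
  have eb : ∀ i j, e (.r i) (b j) = b (i + j) := by
    intro i j
    rw [bval, bval, ← Equiv.Perm.mul_apply, ← map_mul, DihedralGroup.r_mul_r]
  have sb : ∀ i j, e (.sr i) (b j) = b (-i - j) := by
    intro i j
    rw [bval, ← Equiv.Perm.mul_apply, ← map_mul, DihedralGroup.sr_mul_r]
    have h1 : (DihedralGroup.sr (i + j) : DihedralGroup p) = .r (-i - j) * .sr 0 := by
      rw [DihedralGroup.r_mul_sr]; congr 1; ring
    rw [h1, map_mul, Equiv.Perm.mul_apply, hq0, bval]
  set φ : ZMod p → ZMod p := fun i => b.symm (m q0 (b i)) with hφ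
  have hφb : ∀ i, b (φ i) = m q0 (b i) := fun i => b.apply_symm_apply _
  have hop : ∀ i j, m (b i) (b j) = b (i + φ (j - i)) := by
    intro i j
    rw [← eb, hφb, haut, ← b0, eb, eb]
    congr 2
    · rw [add_zero]
    · ring
  have hφinj : Function.Injective φ := by
    intro i j hij
    have h1 : m q0 (b i) = m q0 (b j) := by rw [← hφb, ← hφb, hij]
    obtain ⟨x, _, hx⟩ := hm.1 q0 (m q0 (b j))
    exact b.injective ((hx _ h1).trans (hx _ rfl).symm)
  have hφinj2 : Function.Injective (fun x => φ x - x) := by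
    intro i j hij
    have hij' : φ i - i = φ j - j := hij
    have h1 : m (b (-i)) (b 0) = m (b (-j)) (b 0) := by
      rw [hop, hop]
      congr 1
      rw [zero_sub, zero_sub, neg_neg, neg_neg]
      linear_combination hij'
    obtain ⟨x, _, hx⟩ := hm.2 (b 0) (m (b (-j)) (b 0))
    have h2 := b.injective ((hx _ h1).trans (hx _ rfl).symm)
    exact neg_injective h2
  have hφodd : ∀ x, φ (-x) = - φ x := by
    intro x
    apply b.injective
    have h1 := haut (.sr 0) q0 (b x)
    rw [hq0, sb, ← hφb, sb, neg_zero, zero_sub, zero_sub, ← hφb] at h1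
    exact h1.symm
  have hφlin := hlin φ hφinj hφinj2 hφodd
  -- the extra automorphism
  have h2unit : Function.Bijective (fun x : ZMod p => 2 * x) := by
    rw [← Finite.injective_iff_bijective]
    intro x y hxy
    exact mul_left_cancel₀ h2ne hxy
  set σ : Equiv.Perm Q := (b.symm.trans (Equiv.ofBijective _ h2unit)).trans b with hσ
  have hσb : ∀ i, σ (b i) = b (2 * i) := by
    intro i
    rw [hσ, Equiv.trans_apply, Equiv.trans_apply, Equiv.symm_apply_apply]
    rfl
  have hσmem : σ ∈ autGroup m := by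
    intro x y
    obtain ⟨i, rfl⟩ := b.surjective x
    obtain ⟨j, rfl⟩ := b.surjective y
    rw [hop, hσb, hσb, hσb, hop]
    congr 1
    rw [hφlin (j - i), hφlin (2 * j - 2 * i)]
    ring
  obtain ⟨g, hg⟩ := hesurj σ hσmem
  rcases g with i | i
  · have h1 : e (.r i) (b 0) = σ (b 0) := by rw [hg]
    have h2 : e (.r i) (b 1) = σ (b 1) := by rw [hg]
    rw [eb, hσb] at h1 h2
    have h1' := b.injective h1
    have h2' := b.injective h2
    have : (1 : ZMod p) = 0 := by linear_combination h1' - h2'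
    exact one_ne_zero this
  · have h1 : e (.sr i) (b 0) = σ (b 0) := by rw [hg]
    have h2 : e (.sr i) (b 1) = σ (b 1) := by rw [hg]
    rw [sb, hσb] at h1 h2
    have h1' := b.injective h1
    have h2' := b.injective h2
    exact h3ne (by linear_combination h1' - h2')

/-- The dihedral groups of orders 10 and 14 admit no transitive representation by a
quasigroup. -/
theorem result (p : ℕ) (hp : p = 5 ∨ p = 7) : ¬ AdmitsTransitive (DihedralGroup p) := by
  rcases hp with rfl | rfl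
  · exact neg_of_linear 5 (by norm_num) (by norm_num) lin5
  · exact neg_of_linear 7 (by norm_num) (by norm_num) lin7

end Pool.Agent.Results.MP_8306f4_co.DihedralFiveSeven
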